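import Mathlib
import Pool.Agent.H73.G.R8.H327R2.SC.Der
import Pool.Agent.H73.G.R8.TH494.Ell.Add2
import Pool.Agent.H73.G.R8.W245.EB.CMz

/-!
# The multiplications of a lattice: degree, reality, generation (job 2168)
-/

set_option autoImplicit false
open Filter Finset
open scoped Topology PeriodPair ComplexConjugate
noncomputable section
namespace Pool.Agent.TH813.Ell
open H667R3 Pool.Agent.W245.EB
variable {L : PeriodPair}

/-- the Legendre determinant is not zero -/
theorem leg_ne (L : PeriodPair) : L.ω₁ * eta L L.ω₂ - L.ω₂ * eta L L.ω₁ ≠ 0 := by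
  intro h
  obtain ⟨w, hw, hne⟩ := exists_quasi_period L (s := L.ω₁) (ρ := -eta L L.ω₁)
    (Or.inl (ω₁_ne_zero L))
  apply hne
  obtain ⟨m, n, rfl⟩ := PeriodPair.mem_lattice.1 hw
  have m1 : (m : ℂ) * L.ω₁ ∈ L.lattice := by
    have := L.lattice.smul_mem m L.ω₁_mem_lattice
    rwa [zsmul_eq_mul] at this
  have m2 : (n : ℂ) * L.ω₂ ∈ L.lattice := by
    have := L.lattice.smul_mem n L.ω₂_mem_lattice
    rwa [zsmul_eq_mul] at this
  rw [eta_add L m1 m2, eta_zsmul L L.ω₁_mem_lattice, eta_zsmul L L.ω₂_mem_lattice]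
  linear_combination (n : ℂ) * h

end Pool.Agent.TH813.Ell
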